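import Mathlib

namespace Pool.Agent.H.MP_577ba1_lc

open List Relation

def D (y y' : List Bool) : Prop := ∃ s e t, y = s ++ e :: t ∧ y' = s ++ e :: e :: t
abbrev St := ReflTransGen D
def Z (x : List Bool) : Prop := ∃ c, [c, !c, c] <+ x

def le (x y : List Bool) : Prop :=
  St x y ∨ (x <+ y ∧ x.head? = y.head? ∧ x.getLast? = y.getLast? ∧ Z x)

theorem St_mul {x y : List Bool} (h : St x y) (u v : List Bool) : St (u ++ x ++ v) (u ++ y ++ v) := by
  refine ReflTransGen.lift (fun z => u ++ z ++ v) ?_ _ _ h
  rintro a b ⟨s, e, t, rfl, rfl⟩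
  exact ⟨u ++ s, e, t ++ v, by simp, by simp⟩

theorem D_chain {l y y' : List Bool} (hl : l.IsChain (· ≠ ·)) (h : D y y') (h' : l <+ y') :
    l <+ y := by
  obtain ⟨s, e, t, rfl, rfl⟩ := h
  obtain ⟨l1, l2, rfl, h1, h2⟩ := sublist_append_iff.1 h'
  refine h1.append ?_
  rcases sublist_cons_iff.1 h2 with h3 | ⟨r, rfl, h3⟩
  · exact h3
  · rcases sublist_cons_iff.1 h3 with h4 | ⟨r', rfl, h4⟩
    · exact h4.cons_cons e
    · have := (hl.right_of_append)
      simp at this

theorem St_chain {l y y' : List Bool} (hl : l.IsChain (· ≠ ·)) (h : St y y') (h' : l <+ y') :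
    l <+ y := by
  induction h with
  | refl => exact h'
  | tail _ d ih => exact ih (D_chain hl d h')

theorem St_props {x y : List Bool} (h : St x y) :
    x <+ y ∧ x.head? = y.head? ∧ x.getLast? = y.getLast? := by
  induction h with
  | refl => exact ⟨Sublist.refl _, rfl, rfl⟩
  | tail _ d ih =>
    obtain ⟨s, e, t, rfl, rfl⟩ := d
    refine ⟨ih.1.trans ((Sublist.refl s).append (sublist_cons_self _ _)), ih.2.1.trans ?_,
      ih.2.2.trans ?_⟩
    · cases s <;> simp
    · simp [getLast?_append, getLast?_cons_cons]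

theorem Z_St {x y : List Bool} (h : St x y) (hz : Z y) : Z x := by
  obtain ⟨c, hc⟩ := hz
  exact ⟨c, St_chain (by cases c <;> simp) h hc⟩

theorem le_refl' (x : List Bool) : le x x := Or.inl .refl

theorem le_trans' {x y z : List Bool} (h : le x y) (h' : le y z) : le x z := by
  rcases h with h | h <;> rcases h' with h' | h'
  · exact Or.inl (h.trans h')
  · obtain ⟨a, b, c⟩ := St_props h
    exact Or.inr ⟨a.trans h'.1, b.trans h'.2.1, c.trans h'.2.2.1, Z_St h h'.2.2.2⟩
  · obtain ⟨a, b, c⟩ := St_props h'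
    exact Or.inr ⟨h.1.trans a, h.2.1.trans b, h.2.2.1.trans c, h.2.2.2⟩
  · exact Or.inr ⟨h.1.trans h'.1, h.2.1.trans h'.2.1, h.2.2.1.trans h'.2.2.1, h.2.2.2⟩

theorem le_mul {x y : List Bool} (h : le x y) (u v : List Bool) : le (u ++ x ++ v) (u ++ y ++ v) := by
  rcases h with h | ⟨a, b, c, d, hd⟩
  · exact Or.inl (St_mul h u v)
  · refine Or.inr ⟨((Sublist.refl u).append a).append (Sublist.refl v), ?_, ?_, d, ?_⟩
    · simp only [head?_append, b]
    · simp only [getLast?_append, c]
    · exact (hd.trans (sublist_append_right u x)).trans (sublist_append_left _ v)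

theorem le_len {x y : List Bool} (h : le x y) : x.length ≤ y.length := by
  rcases h with h | h
  · exact (St_props h).1.length_le
  · exact h.1.length_le

theorem notZ {x : List Bool} (h : ¬ Z x) : ∃ c p q, x = replicate p c ++ replicate q (!c) := by
  induction x with
  | nil => exact ⟨true, 0, 0, rfl⟩
  | cons e t ih =>
    obtain ⟨c, p, q, rfl⟩ := ih (fun ⟨c, hc⟩ => h ⟨c, hc.cons e⟩)
    by_cases he : e = c
    · exact ⟨c, p + 1, q, by simp [he, replicate_succ]⟩
    · have he' : e = !c := by cases e <;> cases c <;> simp_all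
      subst he'
      cases p with
      | zero => exact ⟨c, 0, q + 1, by simp [replicate_succ]⟩
      | succ p =>
        cases q with
        | zero => exact ⟨!c, 1, p + 1, by simp⟩
        | succ q =>
          exfalso
          refine h ⟨!c, ?_⟩
          simp only [Bool.not_not, replicate_succ, cons_append]
          refine (Sublist.cons_cons _ (Sublist.cons_cons _ ?_))
          exact (singleton_sublist.2 (by simp))

theorem St_rep (c : Bool) {p p' : ℕ} (h : p ≤ p') (h0 : p = 0 ↔ p' = 0) :
    St (replicate p c) (replicate p' c) := by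
  induction h with
  | refl => exact .refl
  | @step m h ih =>
    have hp : p ≠ 0 := fun e => absurd (h0.1 e) (Nat.succ_ne_zero m)
    have hm : m ≠ 0 := fun e => hp (by have : p ≤ m := h; omega)
    refine (ih ⟨fun e => (hp e).elim, fun e => (hm e).elim⟩).tail ?_
    obtain ⟨k, rfl⟩ := Nat.exists_eq_succ_of_ne_zero hm
    exact ⟨[], c, replicate k c, by simp [replicate_succ], by simp [replicate_succ]⟩

theorem St_app {a a' b b' : List Bool} (h : St a a') (h' : St b b') : St (a ++ b) (a' ++ b') := by
  have h1 := St_mul h [] b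
  have h2 := St_mul h' a' []
  simp only [nil_append, append_nil] at h1 h2
  exact h1.trans h2

theorem higman (x : ℕ → List Bool) : ∃ i j, i < j ∧ x i <+ x j := by
  have h1 : (Set.univ : Set Bool).PartiallyWellOrderedOn (· = ·) :=
    Set.finite_univ.partiallyWellOrderedOn
  have := h1.partiallyWellOrderedOn_sublistForall₂ (· = ·)
  obtain ⟨i, j, h, h'⟩ := Set.partiallyWellOrderedOn_iff_exists_lt.1 this x (fun n => by simp)
  refine ⟨i, j, h, ?_⟩
  obtain ⟨l, h2, h3⟩ := sublistForall₂_iff.1 h'
  rw [forall₂_eq_eq_eq] at h2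
  exact h2 ▸ h3

theorem le_wqo (x : ℕ → List Bool) : ∃ i j, i < j ∧ le (x i) (x j) := by
  classical
  have hc : ∀ n, ∃ c p q, ¬ Z (x n) → x n = replicate p c ++ replicate q (!c) := fun n => by
    by_cases h : Z (x n)
    · exact ⟨true, 0, 0, fun h' => (h' h).elim⟩
    · obtain ⟨c, p, q, e⟩ := notZ h
      exact ⟨c, p, q, fun _ => e⟩
  choose c p q hc using hc
  let φ : ℕ → Prop × Option Bool × Option Bool × Bool × Prop × Prop :=
    fun n => (Z (x n), (x n).head?, (x n).getLast?, c n, p n = 0, q n = 0)
  obtain ⟨a, ha⟩ := Finite.exists_infinite_fiber φ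
  have hi : (φ ⁻¹' {a}).Infinite := Set.infinite_coe_iff.1 ha
  let g := Nat.nth (· ∈ φ ⁻¹' {a})
  have gm : StrictMono g := Nat.nth_strictMono hi
  have gφ : ∀ n, φ (g n) = a := fun n => Nat.nth_mem_of_infinite hi n
  obtain ⟨i, j, hij, hs⟩ := higman (fun n => x (g n))
  have e : φ (g i) = φ (g j) := (gφ i).trans (gφ j).symm
  simp only [φ, Prod.mk.injEq, eq_iff_iff] at e
  obtain ⟨e1, e2, e3, e4, e5, e6⟩ := e
  refine ⟨g i, g j, gm hij, ?_⟩
  by_cases hz : Z (x (g i))
  · exact Or.inr ⟨hs, e2, e3, hz⟩
  · have h1 := hc _ hz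
    have h2 := hc _ (fun h => hz (e1.2 h))
    rw [← e4] at h2
    have k1 := hs.count_le (c (g i))
    have k2 := hs.count_le (!c (g i))
    rw [h1, h2] at k1 k2
    simp [count_replicate] at k1 k2
    rw [h1, h2]
    exact Or.inl (St_app (St_rep _ k1 e5) (St_rep _ k2 e6))

def W : ℕ → List Bool
  | 0 => []
  | n + 1 => true :: false :: W n

def X (N : ℕ) : ℕ → List Bool
  | 0 => []
  | n + 1 => replicate N true ++ (replicate N false ++ X N n)

theorem W_chain : ∀ n, (W n).IsChain (· ≠ ·)
  | 0 => by simp [W]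
  | 1 => by simp [W]
  | n + 2 => by
    have := W_chain (n + 1)
    simp only [W] at this ⊢
    simp only [isChain_cons_cons] at this ⊢
    exact ⟨by simp, by simp, this⟩

theorem W_len : ∀ n, (W n).length = 2 * n
  | 0 => rfl
  | n + 1 => by simp [W, W_len n]; omega

theorem W_St {N : ℕ} (hN : 1 ≤ N) : ∀ n, St (W n) (X N n)
  | 0 => .refl
  | n + 1 => St_app (a := [true]) (St_rep true hN (by omega))
      (St_app (a := [false]) (St_rep false hN (by omega)) (W_St hN n))

def G (N : ℕ) (y : List Bool) : Prop :=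
  ∀ i j k c, i < j → j < k → y[i]? = some c → y[j]? = some (!c) → y[k]? = some c → i + N ≤ k

theorem X_get {N : ℕ} (hN : 1 ≤ N) : ∀ n m c, (X N n)[m]? = some c → c = decide ((m / N) % 2 = 0)
  | 0, m, c, h => by simp [X] at h
  | n + 1, m, c, h => by
    simp only [X, getElem?_append, length_replicate] at h
    split_ifs at h with h1 h2
    · rw [getElem?_replicate, if_pos h1] at h
      simp [Nat.div_eq_of_lt h1, ← Option.some.inj h]
    · rw [getElem?_replicate, if_pos h2] at h
      have : m / N = 1 := by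
        rw [show m = (m - N) + N by omega, Nat.add_div_right _ hN, Nat.div_eq_of_lt h2]
      simp [this, ← Option.some.inj h]
    · have := X_get hN n _ c h
      have e : m / N = (m - N - N) / N + 1 + 1 := by
        rw [← Nat.add_div_right _ hN, ← Nat.add_div_right _ hN]
        congr 1
        omega
      rw [this, e]
      congr 1
      apply propext
      omega

theorem G_X {N : ℕ} (hN : 1 ≤ N) (n : ℕ) : G N (X N n) := by
  intro i j k c hij hjk h1 h2 h3
  have e1 := X_get hN n _ _ h1
  have e2 := X_get hN n _ _ h2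
  have e3 := X_get hN n _ _ h3
  by_contra hc
  have a1 : i / N ≤ j / N := Nat.div_le_div_right hij.le
  have a2 : j / N ≤ k / N := Nat.div_le_div_right hjk.le
  have a3 : k / N ≤ i / N + 1 := by
    rw [← Nat.add_div_right _ hN]
    exact Nat.div_le_div_right (by omega)
  cases c <;> simp at e1 e2 e3 <;> omega

theorem G_D {N : ℕ} {y y' : List Bool} (h : D y y') (g : G N y) : G N y' := by
  obtain ⟨s, e, t, rfl, rfl⟩ := h
  have key : ∀ m, (s ++ e :: e :: t)[m]? = (s ++ e :: t)[if m ≤ s.length then m else m - 1]? := by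
    intro m
    split_ifs with h
    · rcases h.lt_or_eq with h | h
      · simp [getElem?_append, h]
      · simp [h]
    · obtain ⟨r, rfl⟩ : ∃ r, m = s.length + (r + 1) := ⟨m - s.length - 1, by omega⟩
      rw [show s.length + (r + 1) - 1 = s.length + r by omega]
      simp [getElem?_append_right]
  intro i j k c hij hjk h1 h2 h3
  rw [key] at h1 h2 h3
  have n1 : (if i ≤ s.length then i else i - 1) ≠ (if j ≤ s.length then j else j - 1) := by
    intro e
    rw [e, h2] at h1
    simp at h1
  have n2 : (if j ≤ s.length then j else j - 1) ≠ (if k ≤ s.length then k else k - 1) := by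
    intro e
    rw [e, h3] at h2
    simp at h2
  have := g _ _ _ c (by split_ifs at n1 ⊢ <;> omega) (by split_ifs at n2 ⊢ <;> omega) h1 h2 h3
  split_ifs at this <;> omega

theorem G_St {N : ℕ} {y y' : List Bool} (h : St y y') (g : G N y) : G N y' := by
  induction h with
  | refl => exact g
  | tail _ d ih => exact G_D d ih

theorem G_notZ {N : ℕ} {s u t : List Bool} (g : G N (s ++ u ++ t)) (hu : u.length ≤ N) : ¬ Z u := by
  rintro ⟨c, hc⟩
  obtain ⟨f, hf⟩ := sublist_iff_exists_orderEmbedding_getElem?_eq.1 hc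
  have key : ∀ m d, u[m]? = some d → (s ++ u ++ t)[s.length + m]? = some d := by
    intro m d h
    have hm : m < u.length := (List.getElem?_eq_some_iff.1 h).1
    rw [getElem?_append_left (by simp; omega), getElem?_append_right (by omega)]
    simpa using h
  have h0 : u[f 0]? = some c := (hf 0).symm
  have h1 : u[f 1]? = some (!c) := (hf 1).symm
  have h2 : u[f 2]? = some c := (hf 2).symm
  have l2 : f 2 < u.length := (List.getElem?_eq_some_iff.1 h2).1
  have := g _ _ _ c (Nat.add_lt_add_left (f.strictMono (show 0 < 1 by omega)) _)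
    (Nat.add_lt_add_left (f.strictMono (show 1 < 2 by omega)) _) (key _ _ h0) (key _ _ h1) (key _ _ h2)
  omega

theorem bad (P : Finset (List Bool × List Bool)) (hP : ∀ r ∈ P, le r.1 r.2) :
    ∃ x : ℕ → List Bool, ∀ i j, i < j → ¬ ReflTransGen
      (fun a b => ∃ r ∈ P, ∃ s t, a = s ++ r.1 ++ t ∧ b = s ++ r.2 ++ t) (x i) (x j) := by
  let N := P.sup (fun r => r.1.length) + 1
  have hN : 1 ≤ N := Nat.le_add_left _ _
  refine ⟨X N, fun i j hij h => ?_⟩
  have : St (X N i) (X N j) := by
    generalize X N j = y at h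
    induction h with
    | refl => exact .refl
    | tail _ d ih =>
      obtain ⟨r, hr, s, t, rfl, rfl⟩ := d
      have hz := G_notZ (G_St ih (G_X hN i))
        ((Finset.le_sup (f := fun r : List Bool × List Bool => r.1.length) hr).trans (Nat.le_succ _))
      rcases hP r hr with h | h
      · exact ih.trans (St_mul h s t)
      · exact (hz h.2.2.2).elim
  have h2 := (St_chain (W_chain j) ((W_St hN i).trans this) (St_props (W_St hN j)).1).length_le
  rw [W_len, W_len] at h2
  omega

end Pool.Agent.H.MP_577ba1_lc
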